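import Pool.Agent.Y677.RSZ.Stm

/-!
# Project RSZ: the number of residue classes with given divisibility conditions (task CLS)
-/

set_option autoImplicit false

open Finset

namespace Pool.Agent.Y833.RSZ

open Pool.Agent.Y677.RSZ

theorem card_filter_eq {s : Finset ℕ} {P Q : ℕ → Prop} {i : DecidablePred P}
    {j : DecidablePred Q} (h : ∀ r ∈ s, (P r ↔ Q r)) :
    (@filter ℕ P i s).card = (@filter ℕ Q j s).card := by
  apply congrArg Finset.card
  ext r
  rw [mem_filter, mem_filter]
  exact and_congr_right (h r)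

/-- `F n` modulo `p` depends only on `n` modulo `p` -/
theorem per_dvd {F : ℤ → ℤ} {p : ℕ} (hper : ∀ n : ℤ, (p : ℤ) ∣ F (n + p) - F n) (a b : ℤ)
    (h : (p : ℤ) ∣ a - b) : (p : ℤ) ∣ F a - F b := by
  obtain ⟨k, hk⟩ := h
  have key : ∀ (j : ℕ) (n : ℤ), (p : ℤ) ∣ F (n + p * j) - F n := by
    intro j
    induction j with
    | zero => intro n; simp
    | succ j ih =>
      intro n
      have h1 := hper (n + p * j)
      have h2 := dvd_add h1 (ih n)
      have e : n + (p : ℤ) * ((j + 1 : ℕ) : ℤ) = n + p * j + p := by push_cast; ring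
      rw [e]
      have e2 : F (n + p * j + p) - F n = F (n + p * j + p) - F (n + p * j) +
        (F (n + p * j) - F n) := by ring
      rw [e2]
      exact h2
  rcases le_total 0 k with h0 | h0
  · have h1 := key k.toNat b
    have e : b + (p : ℤ) * (k.toNat : ℤ) = a := by
      rw [Int.toNat_of_nonneg h0]; linarith
    rwa [e] at h1
  · have h1 := key (-k).toNat a
    have e : a + (p : ℤ) * ((-k).toNat : ℤ) = b := by
      rw [Int.toNat_of_nonneg (by omega)]; linarith
    rw [e] at h1
    have := (dvd_neg.2 h1)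
    rwa [neg_sub] at this

theorem per_iff {F : ℤ → ℤ} {p : ℕ} (hper : ∀ n : ℤ, (p : ℤ) ∣ F (n + p) - F n) (a b : ℤ)
    (h : (p : ℤ) ∣ a - b) : (p : ℤ) ∣ F a ↔ (p : ℤ) ∣ F b := by
  have h1 := per_dvd hper a b h
  constructor
  · intro h2
    have := dvd_sub h2 h1
    rwa [sub_sub_cancel] at this
  · intro h2
    have := dvd_add h1 h2
    rwa [sub_add_cancel] at this

/-- the roots along a progression with difference prime to `p` -/
theorem card_shift {F : ℤ → ℤ} {p : ℕ} (hp : p.Prime)
    (hper : ∀ n : ℤ, (p : ℤ) ∣ F (n + p) - F n) (W b t : ℕ) (hW : ¬ p ∣ W) :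
    ((range p).filter (fun r : ℕ => (p : ℤ) ∣ F ((W * (r + t) + b : ℕ) : ℤ))).card = rt F p := by
  classical
  have hp0 : 0 < p := hp.pos
  set φ : ℕ → ℕ := fun r => (W * (r + t) + b) % p with hφ
  have hinj : Set.InjOn φ (range p : Set ℕ) := by
    intro r hr r' hr' h
    have hr1 : r < p := by simpa using hr
    have hr2 : r' < p := by simpa using hr'
    have h1 : W * (r + t) + b ≡ W * (r' + t) + b [MOD p] := h
    have h2 : W * (r + t) ≡ W * (r' + t) [MOD p] := Nat.ModEq.add_right_cancel' b h1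
    have hc : Nat.gcd p W = 1 := (Nat.Prime.coprime_iff_not_dvd hp).2 hW
    have h3 : r + t ≡ r' + t [MOD p] := Nat.ModEq.cancel_left_of_coprime hc h2
    have h4 : r ≡ r' [MOD p] := Nat.ModEq.add_right_cancel' t h3
    unfold Nat.ModEq at h4
    rwa [Nat.mod_eq_of_lt hr1, Nat.mod_eq_of_lt hr2] at h4
  have hmaps : ∀ r ∈ range p, φ r ∈ range p := by
    intro r _
    rw [mem_range]
    exact Nat.mod_lt _ hp0
  have himg : (range p).image φ = range p := by
    apply Finset.eq_of_subset_of_card_le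
    · intro y hy
      obtain ⟨r, hr, rfl⟩ := Finset.mem_image.1 hy
      exact hmaps r hr
    · rw [Finset.card_image_of_injOn hinj]
  have hiff : ∀ r : ℕ, (p : ℤ) ∣ F ((W * (r + t) + b : ℕ) : ℤ) ↔ (p : ℤ) ∣ F ((φ r : ℕ) : ℤ) := by
    intro r
    apply per_iff hper
    rw [hφ]
    simp only
    rw [Int.natCast_mod]
    exact Int.dvd_self_sub_emod
  unfold rt
  rw [← Finset.card_image_of_injOn (f := φ) (s := (range p).filter
    (fun r : ℕ => (p : ℤ) ∣ F ((W * (r + t) + b : ℕ) : ℤ)))
    (hinj.mono (by intro r hr; simp only [coe_filter, Set.mem_setOf_eq] at hr; exact_mod_cast hr.1))]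
  congr 1
  ext y
  rw [mem_image, mem_filter]
  constructor
  · rintro ⟨r, hr, rfl⟩
    rw [mem_filter] at hr
    exact ⟨hmaps r hr.1, (hiff r).1 hr.2⟩
  · rintro ⟨hy, hy2⟩
    rw [← himg] at hy
    obtain ⟨r, hr, rfl⟩ := Finset.mem_image.1 hy
    exact ⟨r, mem_filter.2 ⟨hr, (hiff r).2 hy2⟩, rfl⟩

open Classical in
/-- the Chinese remainder theorem for two coprime moduli -/
theorem card_mul {a b : ℕ} (ha : 0 < a) (hb : 0 < b) (hab : Nat.Coprime a b) (P Q : ℕ → Prop)
    (hP : ∀ r, P r ↔ P (r % a)) (hQ : ∀ r, Q r ↔ Q (r % b)) :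
    ((range (a * b)).filter (fun r => P r ∧ Q r)).card =
      ((range a).filter P).card * ((range b).filter Q).card := by
  rw [← Finset.card_product]
  refine Finset.card_nbij' (fun r => (r % a, r % b))
    (fun x => (Nat.chineseRemainder hab x.1 x.2 : ℕ)) ?_ ?_ ?_ ?_
  · intro r hr
    simp only [coe_filter, Set.mem_setOf_eq, mem_range] at hr
    simp only [coe_product, coe_filter, Set.mem_prod, Set.mem_setOf_eq, mem_range]
    exact ⟨⟨Nat.mod_lt _ ha, (hP r).1 hr.2.1⟩, ⟨Nat.mod_lt _ hb, (hQ r).1 hr.2.2⟩⟩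
  · intro x hx
    simp only [coe_product, coe_filter, Set.mem_prod, Set.mem_setOf_eq, mem_range] at hx
    simp only [coe_filter, Set.mem_setOf_eq, mem_range]
    obtain ⟨h1, h2⟩ := (Nat.chineseRemainder hab x.1 x.2).2
    refine ⟨Nat.chineseRemainder_lt_mul hab x.1 x.2 ha.ne' hb.ne', ?_, ?_⟩
    · rw [hP, h1, Nat.mod_eq_of_lt hx.1.1]; exact hx.1.2
    · rw [hQ, h2, Nat.mod_eq_of_lt hx.2.1]; exact hx.2.2
  · intro r hr
    simp only [coe_filter, Set.mem_setOf_eq, mem_range] at hr
    simp only
    obtain ⟨h1, h2⟩ := (Nat.chineseRemainder hab (r % a) (r % b)).2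
    have h3 : (Nat.chineseRemainder hab (r % a) (r % b) : ℕ) ≡ r [MOD a * b] := by
      rw [← Nat.modEq_and_modEq_iff_modEq_mul hab]
      exact ⟨h1.trans (Nat.mod_modEq _ _), h2.trans (Nat.mod_modEq _ _)⟩
    have h4 := Nat.chineseRemainder_lt_mul hab (r % a) (r % b) ha.ne' hb.ne'
    unfold Nat.ModEq at h3
    rwa [Nat.mod_eq_of_lt h4, Nat.mod_eq_of_lt hr.1] at h3
  · intro x hx
    simp only [coe_product, coe_filter, Set.mem_prod, Set.mem_setOf_eq, mem_range] at hx
    simp only
    obtain ⟨h1, h2⟩ := (Nat.chineseRemainder hab x.1 x.2).2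
    ext
    · simp only
      rw [h1, Nat.mod_eq_of_lt hx.1.1]
    · simp only
      rw [h2, Nat.mod_eq_of_lt hx.2.1]

open Classical in
/-- the Chinese remainder theorem for a squarefree modulus -/
theorem card_prod (T : Finset ℕ) (hT : ∀ p ∈ T, p.Prime) (Q : ℕ → ℕ → Prop)
    (hQ : ∀ p ∈ T, ∀ r, Q p r ↔ Q p (r % p)) :
    ((range (∏ p ∈ T, p)).filter (fun r => ∀ p ∈ T, Q p r)).card =
      ∏ p ∈ T, ((range p).filter (Q p)).card := by
  induction T using Finset.induction_on with
  | empty => simp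
  | insert q T hq ih =>
    rw [Finset.prod_insert hq, Finset.prod_insert hq]
    have hT' : ∀ p ∈ T, p.Prime := fun p hp => hT p (mem_insert_of_mem hp)
    rw [← ih hT' (fun p hp => hQ p (mem_insert_of_mem hp))]
    have hqp := hT q (mem_insert_self _ _)
    have hco : Nat.Coprime q (∏ p ∈ T, p) := by
      apply Nat.Coprime.prod_right
      intro p hp
      rw [Nat.coprime_primes hqp (hT' p hp)]
      rintro rfl
      exact hq hp
    have hpos : 0 < ∏ p ∈ T, p := Finset.prod_pos fun p hp => (hT' p hp).pos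
    have hmain := card_mul hqp.pos hpos hco (Q q) (fun r => ∀ p ∈ T, Q p r)
      (hQ q (mem_insert_self _ _)) ?_
    · refine Eq.trans ?_ (hmain.trans ?_)
      · apply congrArg Finset.card
        ext r
        simp only [mem_filter, mem_range, mem_insert, forall_eq_or_imp]
      · refine congrArg₂ (· * ·) ?_ ?_ <;>
        · apply congrArg Finset.card
          ext r
          simp only [mem_filter]
    · intro r
      constructor
      · intro h p hp
        rw [hQ p (mem_insert_of_mem hp), Nat.mod_mod_of_dvd _ (Finset.dvd_prod_of_mem _ hp),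
          ← hQ p (mem_insert_of_mem hp)]
        exact h p hp
      · intro h p hp
        have := h p hp
        rwa [hQ p (mem_insert_of_mem hp), Nat.mod_mod_of_dvd _ (Finset.dvd_prod_of_mem _ hp),
          ← hQ p (mem_insert_of_mem hp)] at this

theorem rs_prod (r : ℕ → ℕ) {m : ℕ} (D : Fin m → ℕ)
    (hc : ∀ i j, i ≠ j → Nat.Coprime (D i) (D j)) (S : Finset (Fin m)) :
    rs r (∏ i ∈ S, D i) = ∏ i ∈ S, rs r (D i) := by
  classical
  induction S using Finset.induction_on with
  | empty => simp [rs]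
  | insert q S hq ih =>
    rw [Finset.prod_insert hq, Finset.prod_insert hq, ← ih]
    have hco : Nat.Coprime (D q) (∏ i ∈ S, D i) := by
      apply Nat.Coprime.prod_right
      intro i hi
      apply hc
      rintro rfl
      exact hq hi
    unfold rs
    rw [hco.primeFactors_mul, Finset.prod_union hco.disjoint_primeFactors]

theorem sqf_prod {m : ℕ} (D : Fin m → ℕ) (hs : ∀ i, Squarefree (D i))
    (hc : ∀ i j, i ≠ j → Nat.Coprime (D i) (D j)) (S : Finset (Fin m)) :
    Squarefree (∏ i ∈ S, D i) := by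
  classical
  induction S using Finset.induction_on with
  | empty => simp
  | insert q S hq ih =>
    rw [Finset.prod_insert hq]
    have hco : Nat.Coprime (D q) (∏ i ∈ S, D i) := by
      apply Nat.Coprime.prod_right
      intro i hi
      apply hc
      rintro rfl
      exact hq hi
    rw [Nat.squarefree_mul_iff]
    exact ⟨hco, hs q, ih⟩

/-- for squarefree `D`, divisibility by `D` is divisibility by its prime factors -/
theorem sqf_dvd {D : ℕ} (hD : Squarefree D) (x : ℤ) :
    (D : ℤ) ∣ x ↔ ∀ p ∈ D.primeFactors, (p : ℤ) ∣ x := by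
  constructor
  · intro h p hp
    exact (Int.natCast_dvd_natCast.2 (Nat.dvd_of_mem_primeFactors hp)).trans h
  · intro h
    rw [← Nat.prod_primeFactors_of_squarefree hD, Int.natCast_dvd]
    apply Finset.prod_primes_dvd
    · intro p hp
      exact (Nat.prime_of_mem_primeFactors hp).prime
    · intro p hp
      exact Int.natCast_dvd.1 (h p hp)

/-- task CLS -/
theorem CLS : S_CLS := by
  classical
  intro F hper W b m D t hD hc
  set P : ℕ := ∏ i, D i with hP
  have hPs : Squarefree P := sqf_prod D (fun i => (hD i).1) hc univ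
  have hP0 : P ≠ 0 := hPs.ne_zero
  let Q : ℕ → ℕ → Prop := fun p r => ∀ i, p ∣ D i → (p : ℤ) ∣ F ((W * (r + t i) + b : ℕ) : ℤ)
  have hQ : ∀ p ∈ P.primeFactors, ∀ r, Q p r ↔ Q p (r % p) := by
    intro p hp r
    have hpp := Nat.prime_of_mem_primeFactors hp
    refine forall_congr' fun i => imp_congr Iff.rfl ?_
    apply per_iff (hper p hpp)
    have e : ((W * (r + t i) + b : ℕ) : ℤ) - ((W * (r % p + t i) + b : ℕ) : ℤ) =
        W * ((r : ℤ) - (r : ℤ) % (p : ℤ)) := by
      push_cast
      ring
    rw [e]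
    exact Dvd.dvd.mul_left Int.dvd_self_sub_emod _
  have h1 : (range P).filter (fun r : ℕ => ∀ i, (D i : ℤ) ∣ F ((W * (r + t i) + b : ℕ) : ℤ)) =
      (range (∏ p ∈ P.primeFactors, p)).filter (fun r => ∀ p ∈ P.primeFactors, Q p r) := by
    rw [Nat.prod_primeFactors_of_squarefree hPs]
    apply Finset.filter_congr
    intro r _
    constructor
    · intro h p hp i hi
      exact (Int.natCast_dvd_natCast.2 hi).trans (h i)
    · intro h i
      rw [sqf_dvd (hD i).1]
      intro p hp
      have hpi := Nat.dvd_of_mem_primeFactors hp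
      refine h p ?_ i hpi
      rw [Nat.mem_primeFactors]
      exact ⟨Nat.prime_of_mem_primeFactors hp, hpi.trans (Finset.dvd_prod_of_mem _ (mem_univ i)), hP0⟩
  have h2 := card_prod P.primeFactors (fun p hp => Nat.prime_of_mem_primeFactors hp) Q hQ
  rw [h1, ← rs_prod (rt F) D hc univ]
  refine Eq.trans (congrArg Finset.card ?_) (h2.trans ?_)
  · ext r
    simp only [mem_filter]
  show _ = ∏ p ∈ P.primeFactors, rt F p
  refine Finset.prod_congr rfl fun p hp => ?_
  have hpp := Nat.prime_of_mem_primeFactors hp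
  have hpP := Nat.dvd_of_mem_primeFactors hp
  obtain ⟨i, _, hi⟩ := (hpp.prime.dvd_finset_prod_iff _).1 hpP
  have hpW : ¬ p ∣ W := by
    intro hw
    have := Nat.dvd_gcd hi hw
    rw [(hD i).2] at this
    exact hpp.one_lt.ne' (Nat.dvd_one.1 this)
  rw [← card_shift hpp (hper p hpp) W b (t i) hpW]
  apply card_filter_eq
  intro r _
  constructor
  · intro h
    exact h i hi
  · intro h j hj
    by_cases hij : i = j
    · rw [← hij]; exact h
    · exfalso
      have := Nat.dvd_gcd hi hj
      rw [hc i j hij] at this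
      exact hpp.one_lt.ne' (Nat.dvd_one.1 this)

/-- the classes modulo `W` without common prime factor -/
theorem PIG : S_PIG := by
  classical
  intro F hper W hW
  let Q : ℕ → ℕ → Prop := fun p r => ¬ (p : ℤ) ∣ F (r : ℤ)
  have hQ : ∀ p ∈ W.primeFactors, ∀ r, Q p r ↔ Q p (r % p) := by
    intro p hp r
    have hpp := Nat.prime_of_mem_primeFactors hp
    refine not_congr ?_
    apply per_iff (hper p hpp)
    rw [Int.natCast_mod]
    exact Int.dvd_self_sub_emod
  have h1 := card_prod W.primeFactors (fun p hp => Nat.prime_of_mem_primeFactors hp) Q hQ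
  rw [Nat.prod_primeFactors_of_squarefree hW] at h1
  refine Eq.trans (congrArg Finset.card ?_) (h1.trans ?_)
  · ext r
    simp only [mem_filter, Q]
  refine Finset.prod_congr rfl fun p hp => ?_
  unfold rt
  have h2 := Finset.card_filter_add_card_filter_not (s := range p) (fun r : ℕ => (p : ℤ) ∣ F (r : ℤ))
  rw [card_range] at h2
  refine Eq.trans (b := ((range p).filter (fun r : ℕ => ¬ (p : ℤ) ∣ F (r : ℤ))).card)
    (card_filter_eq (fun r _ => Iff.rfl)) ?_
  omega

end Pool.Agent.Y833.RSZ
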